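import Pool.Agent.helper74.NL.Spec

/-! nl:CYC -/

set_option autoImplicit false

open Complex Metric Set Filter Topology MeasureTheory MPS Pool.Agent.helper98.ILF

noncomputable section

namespace NLF

theorem CYC_prod (k : ℕ) [NeZero k] (F : ℕ → ℂ) : ∏ i : ZMod k, F i.val = ∏ j ∈ Finset.range k, F j := by
  cases k with
  | zero => exact absurd rfl (NeZero.ne 0)
  | succ m => exact (Finset.prod_range F).symm

theorem CYC_deriv (n : ℕ) (c z : ℂ) (m : ℕ) :
    HasDerivAt ((fun w : ℂ => w ^ n + c)^[m])
      (∏ j ∈ Finset.range m, fd n ((fun w : ℂ => w ^ n + c)^[j] z)) z := by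
  induction m with
  | zero =>
    simp only [Finset.range_zero, Finset.prod_empty, Function.iterate_zero]
    exact hasDerivAt_id z
  | succ m ih =>
    have h1 : HasDerivAt (fun w : ℂ => w ^ n + c) (fd n ((fun w : ℂ => w ^ n + c)^[m] z))
        ((fun w : ℂ => w ^ n + c)^[m] z) := by
      unfold fd
      exact (hasDerivAt_pow n _).add_const c
    have h2 := h1.comp z ih
    rw [Function.iterate_succ', Finset.prod_range_succ, mul_comm]
    exact h2

theorem CYC : CYC_stmt := by
  intro n c z hn hpos hder
  set f : ℂ → ℂ := fun w : ℂ => w ^ n + c with hf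
  set k := Function.minimalPeriod f z with hk
  haveI : NeZero k := ⟨hpos.ne'⟩
  have hD : deriv (f^[k]) z = ∏ j ∈ Finset.range k, fd n (f^[j] z) := (CYC_deriv n c z k).deriv
  have hstep : ∀ i : ZMod k, f (f^[i.val] z) = f^[(i + 1).val] z := by
    intro i
    have h1 : (i + 1).val = (i.val + 1) % k := by
      rw [ZMod.val_add, ZMod.val_one_eq_one_mod, Nat.add_mod_mod]
    have h2 : f^[(i.val + 1) % k] z = f^[i.val + 1] z := Function.iterate_mod_minimalPeriod_eq
    rw [h1, h2, Function.iterate_succ_apply']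
  refine ⟨k, inferInstance, fun i => f^[i.val] z, rfl, ⟨?_, hstep, ?_⟩, ?_⟩
  · intro i j hij
    have h1 : i.val ∈ Set.Iio (Function.minimalPeriod f z) := ZMod.val_lt i
    have h2 : j.val ∈ Set.Iio (Function.minimalPeriod f z) := ZMod.val_lt j
    exact ZMod.val_injective k (Function.iterate_injOn_Iio_minimalPeriod h1 h2 hij)
  · intro i hi
    apply hder
    rw [hD]
    refine Finset.prod_eq_zero (Finset.mem_range.2 (ZMod.val_lt i)) ?_
    rw [hi]
    unfold fd
    rw [zero_pow (by omega), mul_zero]
  · rw [hD]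
    exact CYC_prod k fun j => fd n (f^[j] z)

end NLF
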