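import Pool.Agent.helper74.NL.Spec

/-! nl:FIN -/

set_option autoImplicit false

open Complex Metric Set Filter Topology MeasureTheory MPS Pool.Agent.helper98.ILF

noncomputable section

namespace NLF

theorem FIN (hQ : QUAL_stmt) : FIN_stmt := by
  intro n c ζ hn hζ hj hacc hline
  obtain ⟨d, hd0, hd⟩ : ∃ d : ℝ, 0 < d ∧ ∀ j : ℕ, 1 ≤ j → j ≤ 5 → d < ‖ζ ^ j - 1‖ := by
    have hne : (Finset.Icc 1 5).Nonempty := ⟨1, by simp⟩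
    obtain ⟨j₀, hj₀, hmin⟩ := Finset.exists_min_image (Finset.Icc 1 5) (fun j : ℕ => ‖ζ ^ j - 1‖) hne
    rw [Finset.mem_Icc] at hj₀
    have hpos : 0 < ‖ζ ^ j₀ - 1‖ := norm_pos_iff.2 (sub_ne_zero.2 (hj j₀ hj₀.1 hj₀.2))
    refine ⟨‖ζ ^ j₀ - 1‖ / 2, by positivity, fun j h1 h5 => ?_⟩
    have := hmin j (Finset.mem_Icc.2 ⟨h1, h5⟩)
    linarith
  obtain ⟨ε, hε, hQ'⟩ := hQ n c hn hline d hd0
  have hζ0 : ζ ≠ 0 := by
    rintro rfl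
    rw [norm_zero] at hζ
    exact zero_ne_one hζ
  have hnorm : ((‖ζ‖ : ℝ) : ℂ) ≠ 0 := by
    rw [hζ]
    simp
  have hcont : ∀ j : ℕ, ContinuousAt (fun ρ : ℂ => ‖(ρ / ((‖ρ‖ : ℝ) : ℂ)) ^ j - 1‖) ζ := by
    intro j
    have h1 : ContinuousAt (fun ρ : ℂ => ρ / ((‖ρ‖ : ℝ) : ℂ)) ζ :=
      continuousAt_id.div (Complex.continuous_ofReal.comp continuous_norm).continuousAt hnorm
    exact ((h1.pow j).sub continuousAt_const).norm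
  have hval : ∀ j : ℕ, ‖(ζ / ((‖ζ‖ : ℝ) : ℂ)) ^ j - 1‖ = ‖ζ ^ j - 1‖ := by
    intro j
    rw [hζ]
    simp
  have hev1 : ∀ᶠ ρ in 𝓝 ζ, ∀ j ∈ Finset.Icc 1 5, d ≤ ‖(ρ / ((‖ρ‖ : ℝ) : ℂ)) ^ j - 1‖ := by
    rw [Filter.eventually_all_finset]
    intro j hj'
    rw [Finset.mem_Icc] at hj'
    have h2 : d < ‖(ζ / ((‖ζ‖ : ℝ) : ℂ)) ^ j - 1‖ := by
      rw [hval]
      exact hd j hj'.1 hj'.2
    exact ((hcont j).eventually (lt_mem_nhds h2)).mono fun ρ h => le_of_lt h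
  have hev2 : ∀ᶠ ρ in 𝓝 ζ, ‖ρ‖ < 1 + ε := by
    refine continuous_norm.continuousAt.eventually (gt_mem_nhds ?_)
    show ‖ζ‖ < 1 + ε
    rw [hζ]
    linarith
  obtain ⟨η, hη, hball⟩ := Metric.eventually_nhds_iff.1 (hev1.and hev2)
  obtain ⟨z, hz, hzη⟩ := hacc η hη
  obtain ⟨h1, h2⟩ := hball (y := deriv ((fun w : ℂ => w ^ n + c)^[Function.minimalPeriod
    (fun w : ℂ => w ^ n + c) z]) z) (by rw [dist_eq_norm]; exact hzη)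
  have h3 := hQ' z _ hz rfl fun j hj1 hj5 => h1 j (Finset.mem_Icc.2 ⟨hj1, hj5⟩)
  linarith

end NLF
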